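import Pool.Agent.R3B.StmtsU

/-!
# Squad R3B, row SUP (helper96)
-/

set_option autoImplicit false

namespace Pool.Agent.R3B.H96

open Set Filter Topology MeasureTheory
open Pool.Agent.Helper39_Wave (phi scalar_step)
open Pool.Agent.Helper72_Shell (CharSol En psi fold)

theorem sup (stp : StpStmt) : SupStmt := by
  intro κ α ℓ b0 b P k0 k1 Λ h
  have hα := h.sol.apos
  have hℓ := h.sol.lpos
  have hk0 := h.k0p
  have hcpos : 0 < cc α ℓ k0 k1 Λ := by
    unfold cc
    positivity
  set c : ℝ := cc α ℓ k0 k1 Λ with hc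
  have hrec : ∀ k : ℕ, ∃ m : ℝ, m ≤ 1 ∧ m ≤ (1 + α * c * k) ^ (-(1 / α)) ∧
      ∀ y, |P (k * ℓ) y| ≤ m := by
    intro k
    induction k with
    | zero =>
      refine ⟨1, le_rfl, ?_, ?_⟩
      · rw [Nat.cast_zero, mul_zero, add_zero, Real.one_rpow]
      · intro y
        have h1 := h.one y
        simpa using h1
    | succ k ih =>
      obtain ⟨m, hm1, hm2, hm3⟩ := ih
      have hm0 : 0 ≤ m := (abs_nonneg _).trans (hm3 0)
      refine ⟨m - c * m ^ (α + 1), ?_, ?_, ?_⟩
      · have : 0 ≤ c * m ^ (α + 1) := mul_nonneg hcpos.le (Real.rpow_nonneg hm0 _)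
        linarith
      · have h1 := scalar_step hα hcpos (A := 1 + α * c * k) (by positivity) hm0 hm2
        have h2 : 1 + α * c * k + α * c = 1 + α * c * ((k + 1 : ℕ) : ℝ) := by push_cast; ring
        rwa [h2] at h1
      · intro y
        have h1 := stp κ α ℓ b0 b P k0 k1 Λ h (k * ℓ) m y (by positivity) hm1 hm3
        have h2 : (k : ℝ) * ℓ + ℓ = ((k + 1 : ℕ) : ℝ) * ℓ := by push_cast; ring
        rwa [h2] at h1
  intro k t y ht
  obtain ⟨m, -, hm2, hm3⟩ := hrec k
  exact (h.sol.abs_le_of_le (by positivity) hm3 t ht y).trans hm2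

end Pool.Agent.R3B.H96
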